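import Pool.Agent.W251.GX.Defs
import Pool.Agent.W78.GA.Basic

/-!
Project GX: a set which meets all sectors between elements with two given values of a completely
multiplicative function of order `3` is large.
-/

set_option autoImplicit false

namespace Pool.Agent.W398.GX

open Finset Filter
open Pool.Agent.H376R2.MR (w)
open Pool.Agent.W78.GA (Qd nm prim bg dt pball mem_pball nm_mul nm_one prim_ne_zero nm_pos nm_posR)
open Pool.Agent.W84.FP (Gi)
open Pool.Agent.W251.GX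

lemma hD01 : (0 : ℤ) ^ 2 < 4 * 1 := by norm_num

lemma bg_nonneg (Y : ℝ) (z : Gi) : 0 ≤ bg Y z :=
  div_nonneg (le_max_left _ _) (Nat.cast_nonneg _)

lemma mass_nonneg (p : Gi → Prop) (Y : ℝ) : 0 ≤ mass p Y := by
  classical
  unfold mass
  refine Finset.sum_nonneg fun z _ => ?_
  split_ifs
  · exact bg_nonneg _ _
  · exact le_rfl

lemma mass_mono {p q : Gi → Prop} {Y : ℝ} (h : ∀ z, prim z → p z → q z) : mass p Y ≤ mass q Y := by
  classical
  unfold mass
  refine Finset.sum_le_sum fun z hz => ?_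
  have hz' := ((mem_pball hD01).1 hz).1
  split_ifs with h1 h2 h2
  · exact le_rfl
  · exact absurd (h z hz' h1) h2
  · exact bg_nonneg _ _
  · exact le_rfl

lemma mass_le_three {p q r s : Gi → Prop} {Y : ℝ} (h : ∀ z, prim z → p z → q z ∨ r z ∨ s z) :
    mass p Y ≤ mass q Y + mass r Y + mass s Y := by
  classical
  unfold mass
  rw [← Finset.sum_add_distrib, ← Finset.sum_add_distrib]
  refine Finset.sum_le_sum fun z hz => ?_
  have hz' := ((mem_pball hD01).1 hz).1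
  have hb := bg_nonneg Y z
  by_cases hp : p z
  · rcases h z hz' hp with h1 | h1 | h1
    · rw [if_pos hp, if_pos h1]
      have h2 : 0 ≤ (if r z then bg Y z else 0) := by split_ifs <;> [exact hb; exact le_rfl]
      have h3 : 0 ≤ (if s z then bg Y z else 0) := by split_ifs <;> [exact hb; exact le_rfl]
      linarith
    · rw [if_pos hp, if_pos h1]
      have h2 : 0 ≤ (if q z then bg Y z else 0) := by split_ifs <;> [exact hb; exact le_rfl]
      have h3 : 0 ≤ (if s z then bg Y z else 0) := by split_ifs <;> [exact hb; exact le_rfl]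
      linarith
    · rw [if_pos hp, if_pos h1]
      have h2 : 0 ≤ (if q z then bg Y z else 0) := by split_ifs <;> [exact hb; exact le_rfl]
      have h3 : 0 ≤ (if r z then bg Y z else 0) := by split_ifs <;> [exact hb; exact le_rfl]
      linarith
  · rw [if_neg hp]
    have h1 : 0 ≤ (if q z then bg Y z else 0) := by split_ifs <;> [exact hb; exact le_rfl]
    have h2 : 0 ≤ (if r z then bg Y z else 0) := by split_ifs <;> [exact hb; exact le_rfl]
    have h3 : 0 ≤ (if s z then bg Y z else 0) := by split_ifs <;> [exact hb; exact le_rfl]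
    linarith

lemma bg_mul {u z : Gi} (hu : u ≠ 0) (hz : z ≠ 0) {Y : ℝ} (hY : 0 < Y) :
    bg Y z = nm u * bg (nm u * Y) (u * z) := by
  have h1 : (0 : ℝ) < nm u := nm_posR hD01 hu
  have h2 : (0 : ℝ) < nm z := nm_posR hD01 hz
  unfold bg
  rw [nm_mul]
  push_cast
  rw [Real.log_mul h1.ne' h2.ne', Real.log_mul h1.ne' hY.ne']
  rw [show Real.log (nm u : ℝ) + Real.log (nm z : ℝ) - (Real.log (nm u : ℝ) + Real.log Y) =
    Real.log (nm z : ℝ) - Real.log Y by ring]
  field_simp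

lemma mass_push {p q : Gi → Prop} {Y : ℝ} (hY : 0 < Y) {u : Gi} (hu : u ≠ 0)
    (h : ∀ z, prim z → p z → prim (u * z) ∧ q (u * z)) :
    mass p Y ≤ nm u * mass q (nm u * Y) := by
  classical
  have hnu : (0 : ℝ) < nm u := nm_posR hD01 hu
  unfold mass
  rw [← Finset.sum_filter, ← Finset.sum_filter, Finset.mul_sum]
  have e1 : ∑ z ∈ (pball 0 1 (Real.exp 1 * Y)).filter p, bg Y z =
      ∑ z ∈ (pball 0 1 (Real.exp 1 * Y)).filter p, nm u * bg (nm u * Y) (u * z) := by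
    refine Finset.sum_congr rfl fun z hz => ?_
    exact bg_mul hu (prim_ne_zero ((mem_pball hD01).1 (mem_filter.1 hz).1).1) hY
  have hinj : Set.InjOn (fun z : Gi => u * z)
      ((pball 0 1 (Real.exp 1 * Y)).filter p : Set Gi) := by
    intro x _ y _ hxy
    have hxy' : u * x = u * y := hxy
    by_contra hne
    have h0 : u * (x - y) = 0 := by rw [mul_sub, hxy', sub_self]
    have h1 : nm (u * (x - y)) = 0 := by rw [h0]; simp
    rw [nm_mul] at h1
    rcases Nat.mul_eq_zero.1 h1 with h2 | h2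
    · exact (nm_pos hD01 hu).ne' h2
    · exact (nm_pos hD01 (sub_ne_zero.2 hne)).ne' h2
  rw [e1, ← Finset.sum_image (f := fun y => (nm u : ℝ) * bg (nm u * Y) y) hinj]
  refine Finset.sum_le_sum_of_subset_of_nonneg ?_ fun y _ _ => mul_nonneg hnu.le (bg_nonneg _ _)
  intro y hy
  obtain ⟨z, hz, rfl⟩ := Finset.mem_image.1 hy
  obtain ⟨hz1, hz2⟩ := mem_filter.1 hz
  obtain ⟨hz3, hz4⟩ := (mem_pball hD01).1 hz1
  obtain ⟨h1, h2⟩ := h z hz3 hz2
  refine mem_filter.2 ⟨(mem_pball hD01).2 ⟨h1, ?_⟩, h2⟩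
  rw [nm_mul]
  push_cast
  calc (nm u : ℝ) * nm z ≤ nm u * (Real.exp 1 * Y) := mul_le_mul_of_nonneg_left hz4 hnu.le
    _ = Real.exp 1 * (nm u * Y) := by ring

lemma hit_mono {F : Gi → ℂ} {a b : ℂ} {X X' : ℝ} {B : Finset Gi} (hX : X' ≤ X)
    (h : HitAB F a b X B) : HitAB F a b X' B := by
  intro z z' hz hz' h1 h2
  have k1 : z ∈ pball 0 1 X := by
    obtain ⟨e1, e2⟩ := (mem_pball hD01).1 hz
    exact (mem_pball hD01).2 ⟨e1, e2.trans hX⟩
  have k2 : z' ∈ pball 0 1 X := by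
    obtain ⟨e1, e2⟩ := (mem_pball hD01).1 hz'
    exact (mem_pball hD01).2 ⟨e1, e2.trans hX⟩
  exact h z z' k1 k2 h1 h2

lemma hit_symm {F : Gi → ℂ} {a b : ℂ} {X : ℝ} {B : Finset Gi}
    (h : HitAB F a b X B) : HitAB F b a X B := by
  intro z z' hz hz' h1 h2
  obtain ⟨h3, h4⟩ := h z' z hz' hz h2 h1
  exact ⟨h4, h3⟩

lemma cube {a x ω : ℂ} (ha : a ^ 3 = 1) (hx : x ^ 3 = 1) (hω : ω ^ 3 = 1) (h1 : ω ≠ 1) :
    x = a ∨ x = a * ω ∨ x = a * ω * ω := by
  have h2 : 1 + ω + ω ^ 2 = 0 := by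
    have h3 : (ω - 1) * (1 + ω + ω ^ 2) = 0 := by linear_combination hω
    rcases mul_eq_zero.1 h3 with h4 | h4
    · exact absurd (sub_eq_zero.1 h4) h1
    · exact h4
  have h3 : (x - a) * ((x - a * ω) * (x - a * ω * ω)) = 0 := by
    have : (x - a) * ((x - a * ω) * (x - a * ω * ω)) =
        (x ^ 3 - 1) - (a ^ 3 - 1) * ω ^ 3 - (ω ^ 3 - 1) - (x ^ 2 * a - x * a ^ 2 * ω) * (1 + ω + ω ^ 2) := by
      ring
    rw [this, hx, ha, hω, h2]
    ring
  rcases mul_eq_zero.1 h3 with h4 | h4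
  · exact Or.inl (sub_eq_zero.1 h4)
  · rcases mul_eq_zero.1 h4 with h5 | h5
    · exact Or.inr (Or.inl (sub_eq_zero.1 h5))
    · exact Or.inr (Or.inr (sub_eq_zero.1 h5))

/-- the masses at one scale -/
lemma scale {F : Gi → ℂ} (hF : Cm 3 F) {u : Gi} (hu : prim u) (hFu : F u ≠ 1)
    (himp : ∀ z : Gi, prim (u * z) → prim (u * u * z)) {a : ℂ} (ha3 : a ^ 3 = 1) {Y c₀ ε : ℝ}
    (hc₀ : 0 < c₀) (hm : c₀ ≤ mass (fun z : Gi => prim (u * z)) Y)
    (hP : ∀ (v : Gi) (x y : ℂ), v = 1 ∨ v = u ∨ v = u * u →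
      ((x = a ∧ F v * y = a * F u) ∨ (x = a * F u ∧ F v * y = a)) →
      mass (fun z => F z = x) Y * mass (fun z => F z = y ∧ prim (v * z)) Y ≤ ε) :
    mass (fun z => F z = a) Y ≤ 3 * ε / c₀ ∧ mass (fun z => F z = a * F u) Y ≤ 3 * ε / c₀ ∧
      c₀ - 6 * ε / c₀ ≤ mass (fun z => F z = a * F u * F u ∧ prim (u * z)) Y := by
  have hω : F u ^ 3 = 1 := hF.pow u
  have h1 : F 1 = 1 := by
    have e1 := hF.mul 1 1 one_ne_zero one_ne_zero
    rw [one_mul] at e1
    have e2 := hF.pow 1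
    have e3 : F 1 ≠ 0 := by
      intro h
      rw [h] at e2
      norm_num at e2
    exact mul_left_cancel₀ e3 (by rw [← e1, mul_one])
  have hu0 : u ≠ 0 := prim_ne_zero hu
  have huu : F (u * u) = F u * F u := hF.mul u u hu0 hu0
  -- primitivity
  have hpr : ∀ z : Gi, prim (u * z) → prim z → prim (1 * z) := fun z _ h => by rwa [one_mul]
  -- the splitting of the mass of `prim (u z)`
  have hsplit : mass (fun z : Gi => prim (u * z)) Y ≤
      mass (fun z => F z = a ∧ prim (u * z)) Y + mass (fun z => F z = a * F u ∧ prim (u * z)) Y +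
        mass (fun z => F z = a * F u * F u ∧ prim (u * z)) Y := by
    refine mass_le_three fun z _ hz => ?_
    rcases cube ha3 (hF.pow z) hω hFu with h | h | h
    · exact Or.inl ⟨h, hz⟩
    · exact Or.inr (Or.inl ⟨h, hz⟩)
    · exact Or.inr (Or.inr ⟨h, hz⟩)
  set A := mass (fun z => F z = a) Y with hA
  set B := mass (fun z => F z = a * F u) Y with hB
  set Au := mass (fun z => F z = a ∧ prim (u * z)) Y with hAu
  set Bu := mass (fun z => F z = a * F u ∧ prim (u * z)) Y with hBu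
  set Cu := mass (fun z => F z = a * F u * F u ∧ prim (u * z)) Y with hCu
  have A0 : 0 ≤ A := mass_nonneg _ _
  have B0 : 0 ≤ B := mass_nonneg _ _
  have Au_le : Au ≤ A := mass_mono fun z _ h => h.1
  have Bu_le : Bu ≤ B := mass_mono fun z _ h => h.1
  have a1 : A * Au ≤ ε := hP u a a (Or.inr (Or.inl rfl)) (Or.inl ⟨rfl, mul_comm _ _⟩)
  have a2 : A * Bu ≤ ε := by
    refine le_trans (mul_le_mul_of_nonneg_left ?_ A0)
      (hP 1 a (a * F u) (Or.inl rfl) (Or.inl ⟨rfl, by rw [h1, one_mul]⟩))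
    exact mass_mono fun z hz h => ⟨h.1, by rwa [one_mul]⟩
  have a3 : A * Cu ≤ ε := by
    refine le_trans (mul_le_mul_of_nonneg_left ?_ A0)
      (hP (u * u) a (a * F u * F u) (Or.inr (Or.inr rfl)) (Or.inl ⟨rfl, ?_⟩))
    · exact mass_mono fun z _ h => ⟨h.1, himp z h.2⟩
    · rw [huu]
      linear_combination (a * F u) * hω
  have b1 : B * Au ≤ ε := by
    refine le_trans (mul_le_mul_of_nonneg_left ?_ B0)
      (hP 1 (a * F u) a (Or.inl rfl) (Or.inr ⟨rfl, by rw [h1, one_mul]⟩))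
    exact mass_mono fun z hz h => ⟨h.1, by rwa [one_mul]⟩
  have b2 : B * Bu ≤ ε := by
    refine le_trans (mul_le_mul_of_nonneg_left ?_ B0)
      (hP (u * u) (a * F u) (a * F u) (Or.inr (Or.inr rfl)) (Or.inr ⟨rfl, ?_⟩))
    · exact mass_mono fun z _ h => ⟨h.1, himp z h.2⟩
    · rw [huu]
      linear_combination a * hω
  have b3 : B * Cu ≤ ε := by
    refine hP u (a * F u) (a * F u * F u) (Or.inr (Or.inl rfl)) (Or.inr ⟨rfl, ?_⟩)
    linear_combination a * hω
  have hA3 : A * c₀ ≤ 3 * ε := by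
    have : A * c₀ ≤ A * (Au + Bu + Cu) := mul_le_mul_of_nonneg_left (hm.trans hsplit) A0
    linarith [mul_add A (Au + Bu) Cu, mul_add A Au Bu]
  have hB3 : B * c₀ ≤ 3 * ε := by
    have : B * c₀ ≤ B * (Au + Bu + Cu) := mul_le_mul_of_nonneg_left (hm.trans hsplit) B0
    linarith [mul_add B (Au + Bu) Cu, mul_add B Au Bu]
  have hA4 : A ≤ 3 * ε / c₀ := (le_div_iff₀ hc₀).2 hA3
  have hB4 : B ≤ 3 * ε / c₀ := (le_div_iff₀ hc₀).2 hB3
  refine ⟨hA4, hB4, ?_⟩
  have : 6 * ε / c₀ = 3 * ε / c₀ + 3 * ε / c₀ := by ring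
  linarith

lemma core (hpd : S_PD 0 1) (ha : S_A0U) {F : Gi → ℂ} (hF : Cm 3 F) (hm1 : F (-1) = 1) {u : Gi}
    (hu : prim u) (hFu : F u ≠ 1) (huu : prim (u * u))
    (himp : ∀ z : Gi, prim (u * z) → prim (u * u * z)) {a : ℂ} (ha3 : a ^ 3 = 1) :
    ∃ ε : ℝ, 0 < ε ∧ ∃ X₀ : ℝ, ∀ (X : ℝ) (B : Finset Gi), X₀ ≤ X → (0 : Gi) ∉ B →
      HitAB F a (a * F u) X B → ε * X ≤ (B.card : ℝ) := by
  obtain ⟨c₀, hc₀, Y₀, hY₀⟩ := ha u hu
  have hu0 : u ≠ 0 := prim_ne_zero hu
  have hn1 : (1 : ℝ) ≤ nm u := by exact_mod_cast nm_pos hD01 hu0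
  have hn0 : (0 : ℝ) < nm u := by linarith
  set n : ℝ := (nm u : ℝ) with hn
  set L : ℝ := Real.exp 1 * n ^ 2 with hL
  have hLpos : 0 < L := by positivity
  set ε : ℝ := c₀ ^ 2 / (6 * n + 12) with hε
  have hεpos : 0 < ε := by positivity
  have he : (0 : ℝ) < Real.exp 1 := Real.exp_pos 1
  have hn2 : n ≤ n ^ 2 := by nlinarith
  have p1 : prim (1 : Gi) := by
    unfold prim
    rw [QuadraticAlgebra.re_one, QuadraticAlgebra.im_one]
    rfl
  have L1 : Real.exp 1 * nm (1 : Gi) ≤ L := by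
    rw [nm_one, hL]
    push_cast
    exact mul_le_mul_of_nonneg_left (by linarith) he.le
  have L2 : Real.exp 1 * nm u ≤ L := mul_le_mul_of_nonneg_left hn2 he.le
  have L3 : Real.exp 1 * nm (u * u) ≤ L := by
    rw [nm_mul, hL, hn]
    push_cast
    rw [pow_two]
  obtain ⟨δ1, hδ1, Y1, hY1⟩ := hpd 3 F hF hm1 1 L ε p1 L1 hεpos
  obtain ⟨δ2, hδ2, Y2, hY2⟩ := hpd 3 F hF hm1 u L ε hu L2 hεpos
  obtain ⟨δ3, hδ3, Y3, hY3⟩ := hpd 3 F hF hm1 (u * u) L ε huu L3 hεpos
  set δ := min δ1 (min δ2 δ3) with hδ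
  have hδpos : 0 < δ := lt_min hδ1 (lt_min hδ2 hδ3)
  set Ym := max (max Y₀ Y1) (max (max Y2 Y3) 1) with hYm
  have hYm1 : 1 ≤ Ym := (le_max_right _ _).trans (le_max_right _ _)
  refine ⟨δ / (L * n), by positivity, L * n * Ym, fun X B hX h0 hit => ?_⟩
  by_contra hcon
  push Not at hcon
  set Y := X / (L * n) with hY
  have hYY : Ym ≤ Y := by
    rw [hY, le_div_iff₀ (by positivity)]
    linarith
  have hYpos : 0 < Y := by linarith
  have hXY : L * (n * Y) = X := by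
    rw [hY]
    field_simp
  have hcard : (B.card : ℝ) ≤ δ * Y := by
    have : δ / (L * n) * X = δ * Y := by rw [hY]; ring
    rw [← this]
    exact hcon.le
  have hne : F u ≠ 1 := hFu
  have ha0 : a ≠ 0 := by
    intro h
    rw [h] at ha3
    norm_num at ha3
  have hab : a ≠ a * F u := by
    intro h
    apply hFu
    have : a * 1 = a * F u := by rw [mul_one]; exact h
    exact (mul_left_cancel₀ ha0 this).symm
  -- both scales
  have key : ∀ Z : ℝ, Y ≤ Z → L * Z ≤ X → 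
      mass (fun z => F z = a) Z ≤ 3 * ε / c₀ ∧ mass (fun z => F z = a * F u) Z ≤ 3 * ε / c₀ ∧
      c₀ - 6 * ε / c₀ ≤ mass (fun z => F z = a * F u * F u ∧ prim (u * z)) Z := by
    intro Z hZ1 hZ2
    have hZY : Ym ≤ Z := hYY.trans hZ1
    have hZ0 : Y₀ ≤ Z := ((le_max_left _ _).trans (le_max_left _ _)).trans hZY
    have hZa : Y1 ≤ Z := ((le_max_right _ _).trans (le_max_left _ _)).trans hZY
    have hZb : Y2 ≤ Z := ((le_max_left _ _).trans ((le_max_left _ _).trans (le_max_right _ _))).trans hZY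
    have hZc : Y3 ≤ Z := ((le_max_right _ _).trans ((le_max_left _ _).trans (le_max_right _ _))).trans hZY
    have hcZ : (B.card : ℝ) ≤ δ * Z := hcard.trans (mul_le_mul_of_nonneg_left hZ1 hδpos.le)
    have hZpos : 0 < Z := by linarith
    have c1 : (B.card : ℝ) ≤ δ1 * Z :=
      hcZ.trans (mul_le_mul_of_nonneg_right (min_le_left _ _) hZpos.le)
    have c2 : (B.card : ℝ) ≤ δ2 * Z :=
      hcZ.trans (mul_le_mul_of_nonneg_right ((min_le_right _ _).trans (min_le_left _ _)) hZpos.le)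
    have c3 : (B.card : ℝ) ≤ δ3 * Z :=
      hcZ.trans (mul_le_mul_of_nonneg_right ((min_le_right _ _).trans (min_le_right _ _)) hZpos.le)
    have hit1 : HitAB F a (a * F u) (L * Z) B := hit_mono hZ2 hit
    have hit2 : HitAB F (a * F u) a (L * Z) B := hit_symm hit1
    refine scale hF hu hFu himp ha3 hc₀ (hY₀ Z hZ0) ?_
    intro v x y hv hxy
    have hneq : x ≠ F v * y := by
      rcases hxy with ⟨h1, h2⟩ | ⟨h1, h2⟩
      · rw [h1, h2]; exact hab
      · rw [h1, h2]; exact hab.symm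
    have hhit : HitAB F x (F v * y) (L * Z) B := by
      rcases hxy with ⟨h1, h2⟩ | ⟨h1, h2⟩
      · rw [h1, h2]; exact hit1
      · rw [h1, h2]; exact hit2
    rcases hv with rfl | rfl | rfl
    · exact hY1 Z B x y hZa h0 c1 hneq hhit
    · exact hY2 Z B x y hZb h0 c2 hneq hhit
    · exact hY3 Z B x y hZc h0 c3 hneq hhit
  have hYle : Y ≤ n * Y := by nlinarith
  obtain ⟨-, -, k1⟩ := key Y le_rfl (by
    rw [← hXY]
    exact mul_le_mul_of_nonneg_left hYle hLpos.le)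
  obtain ⟨k2, -, -⟩ := key (n * Y) hYle hXY.le
  have k3 : mass (fun z => F z = a * F u * F u ∧ prim (u * z)) Y ≤
      n * mass (fun z => F z = a) (n * Y) := by
    refine mass_push hYpos hu0 fun z hz hz2 => ⟨hz2.2, ?_⟩
    rw [hF.mul u z hu0 (prim_ne_zero hz), hz2.1]
    linear_combination a * hF.pow u
  have k4 : c₀ - 6 * ε / c₀ ≤ n * (3 * ε / c₀) :=
    k1.trans (k3.trans (mul_le_mul_of_nonneg_left k2 hn0.le))
  have k5 : c₀ * c₀ ≤ (3 * n + 6) * ε := by
    have e1 : c₀ ≤ (3 * n + 6) * ε / c₀ := by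
      have : (3 * n + 6) * ε / c₀ = n * (3 * ε / c₀) + 6 * ε / c₀ := by ring
      linarith
    rwa [le_div_iff₀ hc₀] at e1
  have k6 : (3 * n + 6) * ε = c₀ ^ 2 / 2 := by
    rw [hε]
    field_simp
    ring
  rw [k6] at k5
  nlinarith [pow_pos hc₀ 2]

theorem scb (hpd : S_PD 0 1) (ha : S_A0U) : S_SCB := by
  rintro F hF hm1 ⟨u, hu, hFu, huu, himp⟩ a b ha3 hb3 hab
  rcases cube ha3 hb3 (hF.pow u) hFu with h | h | h
  · exact absurd h.symm hab
  · subst h
    exact core hpd ha hF hm1 hu hFu huu himp ha3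
  · have h2 : a = b * F u := by
      rw [h]
      linear_combination -a * hF.pow u
    obtain ⟨ε, hε, X₀, hX₀⟩ := core hpd ha hF hm1 hu hFu huu himp hb3
    refine ⟨ε, hε, X₀, fun X B hX h0 hit => hX₀ X B hX h0 ?_⟩
    rw [← h2]
    exact hit_symm hit

end Pool.Agent.W398.GX
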